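import Pool.Agent.Q188.FC.StmG

/-!
# Project FC, jobs SC, NC, GF: the algebraic steps
-/

set_option autoImplicit false

open MeasureTheory

namespace Pool.Agent.Q280.FC

open Pool.Agent.Q188.FC
open Pool.Agent.W716.FV (E gam gd)

variable {n : ℕ}

theorem hs_nonneg (X : Matrix (Fin n) (Fin n) ℝ) : 0 ≤ hs X :=
  Finset.sum_nonneg fun _ _ => Finset.sum_nonneg fun _ _ => sq_nonneg _

theorem hs_smul (c : ℝ) (X : Matrix (Fin n) (Fin n) ℝ) : hs (c • X) = c ^ 2 * hs X := by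
  unfold hs
  rw [Finset.mul_sum]
  refine Finset.sum_congr rfl fun i _ => ?_
  rw [Finset.mul_sum]
  refine Finset.sum_congr rfl fun j _ => ?_
  rw [Matrix.smul_apply, smul_eq_mul, mul_pow]

theorem pair_smul (c : ℝ) (X : Matrix (Fin n) (Fin n) ℝ) :
    ∑ i, ∑ j, (c • X) i j * X i j = c * hs X := by
  unfold hs
  rw [Finset.mul_sum]
  refine Finset.sum_congr rfl fun i _ => ?_
  rw [Finset.mul_sum]
  refine Finset.sum_congr rfl fun j _ => ?_
  rw [Matrix.smul_apply, smul_eq_mul]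
  ring

theorem mainSC (h1 : CcMom) (h2 : CcBasic) (h3 : SXa) (h4 : SXb) : SXc := by
  intro n φ hφ hm
  have hs0 : 0 ≤ sv φ := (h2 n φ hφ).2.2.2.2.2.2.2.2
  have hsym : (Xm φ).IsSymm := (h1 n φ hφ).2.1
  have hv0 : 0 ≤ hs (Xm φ) := hs_nonneg _
  have key : ∀ Q : Matrix (Fin n) (Fin n) ℝ, Q.IsSymm →
      4 * (∑ i, ∑ j, Q i j * Xm φ i j) ^ 2 ≤
        sv φ * (1 + (2 + 6 * sv φ) * hs Q - 3 * sv φ - 8 * (∑ i, ∑ j, Q i j * Xm φ i j)) := by
    intro Q hQ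
    have ha := h3 n φ hφ hm Q hQ
    obtain ⟨hb, hc⟩ := h4 n φ hφ hm Q hQ
    have h5 := mul_le_mul_of_nonneg_left ha hs0
    have h6 := mul_le_mul_of_nonneg_left hb hs0
    linarith
  have k0 := key 0 (by simp [Matrix.IsSymm])
  have hz : hs (0 : Matrix (Fin n) (Fin n) ℝ) = 0 := by simp [hs]
  have hs3 : sv φ ≤ 1 / 3 := by
    simp only [Matrix.zero_apply, zero_mul, Finset.sum_const_zero, hz] at k0
    rcases hs0.eq_or_lt with h | h
    · rw [← h]; norm_num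
    · have : 0 ≤ sv φ * (1 - 3 * sv φ) := by nlinarith
      have h7 := (mul_nonneg_iff_of_pos_left h).1 this
      linarith
  refine ⟨hs3, ?_⟩
  have hden : 0 < 2 * (1 + sv φ) := by linarith
  rw [le_div_iff₀ hden]
  set s := sv φ with hsdef
  set v := hs (Xm φ) with hvdef
  rcases hv0.eq_or_lt with h | hv
  · rw [← h, zero_mul]
    apply mul_nonneg hs0
    nlinarith
  have kc : ∀ c : ℝ, 0 ≤ (v * (s * (2 + 6 * s) - 4 * v)) * (c * c) + (-(8 * s * v)) * c +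
      s * (1 - 3 * s) := by
    intro c
    have := key (c • Xm φ) (hsym.smul c)
    rw [pair_smul, hs_smul] at this
    nlinarith
  rcases hs0.eq_or_lt with h | hsp
  · have := kc 1
    rw [← h] at this
    nlinarith
  · have hd := discrim_le_zero kc
    unfold discrim at hd
    have h5 : (4 * s * v) * (16 * s * v) ≤
        (4 * s * v) * ((s * (2 + 6 * s) - 4 * v) * (1 - 3 * s)) := by
      nlinarith
    have h6 := le_of_mul_le_mul_left h5 (by positivity)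
    nlinarith

/-- the supremum argument -/
theorem sup_arg (c : ℝ → ℝ) (I : ℝ) (k : ℕ) (hk : k ≠ 0)
    (h : ∀ ρ : ℝ, 0 ≤ ρ → ρ ≤ 1 → 0 ≤ c ρ ∧ c ρ ≤ I ∧ c ρ ^ 2 ≤ c (ρ ^ 2) * I)
    (K r : ℝ) (hr : 0 < r) (hK : ∀ ρ : ℝ, 0 ≤ ρ → ρ ≤ r → c ρ ≤ K * ρ ^ k)
    (ρ : ℝ) (h0 : 0 ≤ ρ) (h1 : ρ ≤ 1) : c ρ ≤ ρ ^ k * I := by
  rcases h0.eq_or_lt with hz | hpos
  · have := hK 0 le_rfl hr.le
    rw [zero_pow hk, mul_zero] at this
    rw [← hz, zero_pow hk, zero_mul]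
    exact this
  have hI : 0 ≤ I := (h ρ h0 h1).1.trans (h ρ h0 h1).2.1
  set a : ℝ → ℝ := fun x => c x / x ^ k with ha
  set S : Set ℝ := a '' Set.Ioc 0 1 with hS
  have hbdd : BddAbove S := by
    refine ⟨max K (I / r ^ k), ?_⟩
    rintro _ ⟨x, hx, rfl⟩
    have hxk : 0 < x ^ k := pow_pos hx.1 k
    rcases le_total x r with hxr | hxr
    · refine le_trans ?_ (le_max_left _ _)
      simp only [ha]
      rw [div_le_iff₀ hxk]
      exact hK x hx.1.le hxr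
    · refine le_trans ?_ (le_max_right _ _)
      simp only [ha]
      have hrk : r ^ k ≤ x ^ k := pow_le_pow_left₀ hr.le hxr k
      have hrk0 : 0 < r ^ k := pow_pos hr k
      exact div_le_div₀ hI (h x hx.1.le hx.2).2.1 hrk0 hrk
  have hne : S.Nonempty := ⟨a 1, 1, ⟨one_pos, le_rfl⟩, rfl⟩
  set A := sSup S with hA
  have hle : ∀ x, 0 < x → x ≤ 1 → a x ≤ A := fun x hx hx1 => le_csSup hbdd ⟨x, ⟨hx, hx1⟩, rfl⟩
  have ha0 : ∀ x, 0 < x → x ≤ 1 → 0 ≤ a x := fun x hx hx1 =>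
    div_nonneg (h x hx.le hx1).1 (pow_nonneg hx.le k)
  have hA0 : 0 ≤ A := (ha0 1 one_pos le_rfl).trans (hle 1 one_pos le_rfl)
  have hsq : ∀ x, 0 < x → x ≤ 1 → a x ^ 2 ≤ A * I := by
    intro x hx hx1
    have hx2 : 0 < x ^ 2 := by positivity
    have hx21 : x ^ 2 ≤ 1 := pow_le_one₀ hx.le hx1
    have e1 : a x ^ 2 ≤ a (x ^ 2) * I := by
      simp only [ha]
      rw [div_pow, ← pow_mul, mul_comm k 2, pow_mul, div_mul_eq_mul_div]
      exact div_le_div_of_nonneg_right (h x hx.le hx1).2.2 (by positivity)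
    exact e1.trans (mul_le_mul_of_nonneg_right (hle _ hx2 hx21) hI)
  have hAle : A ≤ √(A * I) := by
    apply csSup_le hne
    rintro _ ⟨x, hx, rfl⟩
    exact Real.le_sqrt_of_sq_le (hsq x hx.1 hx.2)
  have hAI : A ≤ I := by
    rcases hA0.eq_or_lt with hz | hp
    · rw [← hz]; exact hI
    · have h2 : A ^ 2 ≤ A * I := by
        have := pow_le_pow_left₀ hA0 hAle 2
        rwa [Real.sq_sqrt (mul_nonneg hA0 hI)] at this
      rw [sq] at h2
      exact le_of_mul_le_mul_left h2 hp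
  have := (hle ρ hpos h1).trans hAI
  simp only [ha] at this
  rw [div_le_iff₀ (pow_pos hpos k)] at this
  linarith

theorem mainNC (h1 : NoiseCS) (h2 : NoiseSmall) : NoiseContr := by
  intro n F hF hb h0 ρ hρ0 hρ1
  obtain ⟨K, r, hr, hK⟩ := h2 n F hF hb h0
  constructor
  · have := sup_arg (cor F) (∫ x, F x ^ 2 ∂(gam n)) 1 one_ne_zero (h1 n F hF hb) K r hr
      (fun ρ h0 hr => by rw [pow_one]; exact (hK ρ h0 hr).1) ρ hρ0 hρ1
    rwa [pow_one] at this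
  · intro he
    exact sup_arg (cor F) (∫ x, F x ^ 2 ∂(gam n)) 2 two_ne_zero (h1 n F hF hb) K r hr
      (fun ρ h0 hr => (hK ρ h0 hr).2 he) ρ hρ0 hρ1

theorem mainGF (h1 : CcBasic) (h2 : CcMom) (h3 : SXc) (h4 : BIneq) (h5 : NumFin)
    (h6 : DetLog) : GaussFinal := by
  intro n φ hφ hm p hp
  have hs0 : 0 ≤ sv φ := (h1 n φ hφ).2.2.2.2.2.2.2.2
  obtain ⟨htr, hsym, -, -⟩ := h2 n φ hφ
  obtain ⟨hs3, hv⟩ := h3 n φ hφ hm
  have hv0 : 0 ≤ hs (Xm φ) := hs_nonneg _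
  obtain ⟨b, hb, hbp⟩ : ∃ b : ℝ, (∀ ε : ℝ, 3 * sv φ + 16 * ε * b ≤
      1 + ε ^ 2 * (4 * (sv φ + 2 * √(hs (Xm φ))) + 4 * hs (Xm φ))) ∧ |bv φ p| ≤ |b| := by
    rcases eq_or_ne p 0 with h | h
    · refine ⟨0, fun ε => ?_, ?_⟩
      · have : 0 ≤ ε ^ 2 * (4 * (sv φ + 2 * √(hs (Xm φ))) + 4 * hs (Xm φ)) := by positivity
        linarith
      · rw [h]
        simp [bv]
    · have hp0 : 0 < ‖p‖ := norm_pos_iff.2 h
      refine ⟨bv φ (‖p‖⁻¹ • p), fun ε => h4 n φ hφ hm _ ?_ ε, ?_⟩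
      · rw [norm_smul, norm_inv, norm_norm, inv_mul_cancel₀ hp0.ne']
      · have e : bv φ p = ‖p‖ * bv φ (‖p‖⁻¹ • p) := by
          have e2 : ∫ z, (inner ℝ p z : ℝ) * φ z ^ 3 ∂(gam n) =
              ∫ z, ‖p‖ * ((inner ℝ (‖p‖⁻¹ • p) z : ℝ) * φ z ^ 3) ∂(gam n) := by
            congr 1; ext z
            rw [real_inner_smul_left]
            field_simp
          unfold bv
          rw [e2, integral_const_mul]
          ring
        rw [e, abs_mul, abs_of_nonneg hp0.le]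
        exact mul_le_of_le_one_left (abs_nonneg _) hp
  obtain ⟨hv36, hlog⟩ := h5 (sv φ) (hs (Xm φ)) b hs0 hs3 hv0 hv hb
  have hdet := h6 n (Xm φ) hsym hv36
  rw [htr] at hdet
  have hbp' := neg_abs_le (bv φ p)
  have e1 : Real.exp (-(sv φ + bv φ p) / 2) ≤
      Real.exp (Real.log (100 / 81) + -(sv φ + 3 / 5 * hs (Xm φ))) := by
    apply Real.exp_le_exp.2
    linarith
  rw [Real.exp_add, Real.exp_log (by norm_num)] at e1
  exact e1.trans (mul_le_mul_of_nonneg_left hdet (by norm_num))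

end Pool.Agent.Q280.FC
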