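import Pool.Agent.Q280.FC.CB
import Pool.Agent.Q280.FC.SC

/-!
# Project FC, job SB
-/

set_option autoImplicit false

open MeasureTheory

namespace Pool.Agent.Q280.FC

open Pool.Agent.Q188.FC
open Pool.Agent.W716.FV (E gam gd)
open Pool.Agent.H241R3.FV (act)

variable {n : ℕ}

theorem act_le (Q : Matrix (Fin n) (Fin n) ℝ) (v : E n) : ‖act Q v‖ ^ 2 ≤ hs Q * ‖v‖ ^ 2 := by
  rw [EuclideanSpace.real_norm_sq_eq, EuclideanSpace.real_norm_sq_eq]
  unfold hs
  rw [Finset.sum_mul]
  refine Finset.sum_le_sum fun i _ => ?_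
  exact Finset.sum_mul_sq_le_sq_mul_sq Finset.univ (fun j => Q i j) (fun j => v j)

theorem qp_cont (Q : Matrix (Fin n) (Fin n) ℝ) : Continuous (qp Q) := by
  unfold qp
  fun_prop

theorem qp_pb (Q : Matrix (Fin n) (Fin n) ℝ) : PB (qp Q) := by
  unfold qp
  refine pb_sum _ fun i _ => pb_sum _ fun j _ => ?_
  exact pb_mul (pb_const _) (pb_sub (pb_mul (pb_apply i) (pb_apply j)) (pb_const _))

theorem qp_phi {φ : E n → ℝ} (h : Cc φ) (Q : Matrix (Fin n) (Fin n) ℝ) :
    ∫ z, qp Q z * φ z ^ 2 ∂(gam n) = 2 * ∑ i, ∑ j, Q i j * Xm φ i j := by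
  have hc := cc_cont h
  have hI : ∀ i j : Fin n, Integrable
      (fun z : E n => (z i * z j - if i = j then 1 else 0) * φ z ^ 2) (gam n) := by
    intro i j
    refine pb_intc ?_ (pb_mul (pb_sub (pb_mul (pb_apply i) (pb_apply j)) (pb_const _))
      (pb_pow (cc_pb h) 2))
    fun_prop
  have e : ∀ z : E n, qp Q z * φ z ^ 2 =
      ∑ i, ∑ j, Q i j * ((z i * z j - if i = j then 1 else 0) * φ z ^ 2) := by
    intro z
    unfold qp
    rw [Finset.sum_mul]
    refine Finset.sum_congr rfl fun i _ => ?_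
    rw [Finset.sum_mul]
    refine Finset.sum_congr rfl fun j _ => ?_
    ring
  have e2 : ∫ z, qp Q z * φ z ^ 2 ∂(gam n) = ∫ z : E n,
      ∑ i, ∑ j, Q i j * ((z i * z j - if i = j then 1 else 0) * φ z ^ 2) ∂(gam n) :=
    integral_congr_ae (Filter.Eventually.of_forall e)
  have e3 : ∫ z : E n, ∑ i, ∑ j, Q i j * ((z i * z j - if i = j then 1 else 0) * φ z ^ 2)
      ∂(gam n) = ∑ i, ∑ j, ∫ z : E n, Q i j * ((z i * z j - if i = j then 1 else 0) * φ z ^ 2)
      ∂(gam n) := by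
    rw [integral_finsetSum]
    · refine Finset.sum_congr rfl fun i _ => ?_
      rw [integral_finsetSum]
      exact fun j _ => (hI i j).const_mul _
    · exact fun i _ => integrable_finsetSum _ fun j _ => (hI i j).const_mul _
  rw [e2, e3, Finset.mul_sum]
  refine Finset.sum_congr rfl fun i _ => ?_
  rw [Finset.mul_sum]
  refine Finset.sum_congr rfl fun j _ => ?_
  rw [integral_const_mul]
  unfold Xm
  ring

theorem mainSB (_h1 : PLBasic) (h2 : CcBasic) (h3 : GMom) : SXb := by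
  intro n φ h hm Q hQ
  have hc := cc_cont h
  have hpb := cc_pb h
  have hqc := qp_cont Q
  have hqb := qp_pb Q
  obtain ⟨-, -, -, -, hq2, hqq, hqqq⟩ := (h3 n).2 Q hQ
  obtain ⟨-, -, -, -, -, -, hin, -, hs0⟩ := h2 n φ h
  set P : E n := ∫ z, (qp Q z * φ z) • z ∂(gam n) with hP
  have hcu : ∀ u : E n, Continuous (fun z : E n => (inner ℝ u z : ℝ)) := fun u =>
    continuous_const.inner continuous_id
  have hPv : ∀ v : E n, (inner ℝ P v : ℝ) = ∫ z, qp Q z * φ z * inner ℝ v z ∂(gam n) :=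
    fun v => inner_int (hqc.mul hc) (pb_mul hqb hpb) v
  have hz : ∀ v : E n, ∫ z, φ z * inner ℝ v z ∂(gam n) = 0 := by
    intro v
    rw [← hin v, hm, inner_zero_left]
  have hsv : ∫ z, φ z ^ 2 ∂(gam n) = sv φ := rfl
  have iφ2 : Integrable (fun z => φ z ^ 2) (gam n) := pb_intc (hc.pow 2) (pb_pow hpb 2)
  constructor
  · -- first inequality
    have key : ∀ v : E n, (inner ℝ P v : ℝ) ^ 2 ≤ 6 * sv φ * hs Q * ‖v‖ ^ 2 := by
      intro v
      set w := act Q v with hw
      have cF : Continuous (fun z : E n => (inner ℝ v z : ℝ) * qp Q z - 2 * inner ℝ w z) :=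
        ((hcu v).mul hqc).sub (continuous_const.mul (hcu w))
      have bF : PB (fun z : E n => (inner ℝ v z : ℝ) * qp Q z - 2 * inner ℝ w z) :=
        pb_sub (pb_mul (pb_inner v) hqb) (pb_mul (pb_const 2) (pb_inner w))
      have e1 : (inner ℝ P v : ℝ) =
          ∫ z, ((inner ℝ v z : ℝ) * qp Q z - 2 * inner ℝ w z) * φ z ∂(gam n) := by
        have i1 : Integrable (fun z => qp Q z * φ z * inner ℝ v z) (gam n) :=
          pb_intc ((hqc.mul hc).mul (hcu v)) (pb_mul (pb_mul hqb hpb) (pb_inner v))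
        have i2 : Integrable (fun z => 2 * (φ z * inner ℝ w z)) (gam n) :=
          (pb_intc (hc.mul (hcu w)) (pb_mul hpb (pb_inner w))).const_mul 2
        have e : ∫ z, ((inner ℝ v z : ℝ) * qp Q z - 2 * inner ℝ w z) * φ z ∂(gam n) =
            (∫ z, qp Q z * φ z * inner ℝ v z ∂(gam n)) -
              ∫ z, 2 * (φ z * inner ℝ w z) ∂(gam n) := by
          rw [← integral_sub i1 i2]
          congr 1; ext z
          ring
        rw [e, integral_const_mul, hz w, hPv v]
        ring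
      have e2 : ∫ z, ((inner ℝ v z : ℝ) * qp Q z - 2 * inner ℝ w z) ^ 2 ∂(gam n) =
          2 * hs Q * ‖v‖ ^ 2 + 4 * ‖w‖ ^ 2 := by
        have i1 : Integrable (fun z => (inner ℝ v z : ℝ) ^ 2 * qp Q z ^ 2) (gam n) :=
          pb_intc (((hcu v).pow 2).mul (hqc.pow 2)) (pb_mul (pb_pow (pb_inner v) 2) (pb_pow hqb 2))
        have i2 : Integrable (fun z => 4 * ((inner ℝ v z : ℝ) * inner ℝ w z * qp Q z)) (gam n) :=
          (pb_intc (((hcu v).mul (hcu w)).mul hqc)
            (pb_mul (pb_mul (pb_inner v) (pb_inner w)) hqb)).const_mul 4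
        have i3 : Integrable (fun z => 4 * (inner ℝ w z : ℝ) ^ 2) (gam n) :=
          (pb_intc ((hcu w).pow 2) (pb_pow (pb_inner w) 2)).const_mul 4
        have i12 : Integrable (fun z => (inner ℝ v z : ℝ) ^ 2 * qp Q z ^ 2 -
          4 * ((inner ℝ v z : ℝ) * inner ℝ w z * qp Q z)) (gam n) := i1.sub i2
        have e : ∫ z, ((inner ℝ v z : ℝ) * qp Q z - 2 * inner ℝ w z) ^ 2 ∂(gam n) =
            (∫ z, (inner ℝ v z : ℝ) ^ 2 * qp Q z ^ 2 ∂(gam n)) -
              (∫ z, 4 * ((inner ℝ v z : ℝ) * inner ℝ w z * qp Q z) ∂(gam n)) +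
              ∫ z, 4 * (inner ℝ w z : ℝ) ^ 2 ∂(gam n) := by
          rw [← integral_sub i1 i2, ← integral_add i12 i3]
          congr 1; ext z
          ring
        rw [e, integral_const_mul, integral_const_mul, hqqq v, hqq v w, int_inner_sq, ← hw,
          real_inner_self_eq_norm_sq]
        ring
      rw [e1]
      have h5 := cs (pb_intc (cF.pow 2) (pb_pow bF 2)) iφ2
        (pb_intc (cF.mul hc) (pb_mul bF hpb))
      rw [e2, hsv] at h5
      refine h5.trans ?_
      have h6 := act_le Q v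
      rw [← hw] at h6
      have h7 := mul_le_mul_of_nonneg_right h6 hs0
      nlinarith
    have h5 := key P
    rw [real_inner_self_eq_norm_sq] at h5
    rcases (sq_nonneg ‖P‖).eq_or_lt with h6 | h6
    · rw [← h6]
      exact mul_nonneg (mul_nonneg (by norm_num) hs0) (hs_nonneg Q)
    · rw [sq (‖P‖ ^ 2)] at h5
      exact le_of_mul_le_mul_right h5 h6
  · -- second inequality
    set A := ∫ z, (qp Q z * φ z) ^ 2 ∂(gam n) with hA
    have hT := qp_phi h Q
    set t := ∑ i, ∑ j, Q i j * Xm φ i j with ht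
    have i1 : Integrable (fun z => (qp Q z * φ z) ^ 2) (gam n) :=
      pb_intc ((hqc.mul hc).pow 2) (pb_pow (pb_mul hqb hpb) 2)
    have i2 : Integrable (fun z => qp Q z * φ z * inner ℝ P z) (gam n) :=
      pb_intc ((hqc.mul hc).mul (hcu P)) (pb_mul (pb_mul hqb hpb) (pb_inner P))
    have i3 : Integrable (fun z => qp Q z * φ z ^ 2) (gam n) :=
      pb_intc (hqc.mul (hc.pow 2)) (pb_mul hqb (pb_pow hpb 2))
    have i4 : Integrable (fun z => (inner ℝ P z : ℝ) ^ 2) (gam n) :=
      pb_intc ((hcu P).pow 2) (pb_pow (pb_inner P) 2)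
    have i5 : Integrable (fun z => φ z * inner ℝ P z) (gam n) :=
      pb_intc (hc.mul (hcu P)) (pb_mul hpb (pb_inner P))
    have key : ∀ β : ℝ, 0 ≤ sv φ * (β * β) + (-(4 * t)) * β + (A - ‖P‖ ^ 2) := by
      intro β
      have h5 : 0 ≤ ∫ z, (qp Q z * φ z - inner ℝ P z - β * φ z) ^ 2 ∂(gam n) :=
        integral_nonneg fun z => sq_nonneg _
      have j1 : Integrable (fun z => (qp Q z * φ z) ^ 2 - 2 * (qp Q z * φ z * inner ℝ P z))
        (gam n) := i1.sub (i2.const_mul 2)
      have j2 : Integrable (fun z => (qp Q z * φ z) ^ 2 - 2 * (qp Q z * φ z * inner ℝ P z) -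
        2 * β * (qp Q z * φ z ^ 2)) (gam n) := j1.sub (i3.const_mul _)
      have j3 : Integrable (fun z => (qp Q z * φ z) ^ 2 - 2 * (qp Q z * φ z * inner ℝ P z) -
        2 * β * (qp Q z * φ z ^ 2) + (inner ℝ P z : ℝ) ^ 2) (gam n) := j2.add i4
      have j4 : Integrable (fun z => (qp Q z * φ z) ^ 2 - 2 * (qp Q z * φ z * inner ℝ P z) -
        2 * β * (qp Q z * φ z ^ 2) + (inner ℝ P z : ℝ) ^ 2 + 2 * β * (φ z * inner ℝ P z))
        (gam n) := j3.add (i5.const_mul _)
      have e : ∫ z, (qp Q z * φ z - inner ℝ P z - β * φ z) ^ 2 ∂(gam n) =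
          A - 2 * (∫ z, qp Q z * φ z * inner ℝ P z ∂(gam n)) -
            2 * β * (∫ z, qp Q z * φ z ^ 2 ∂(gam n)) + (∫ z, (inner ℝ P z : ℝ) ^ 2 ∂(gam n)) +
            2 * β * (∫ z, φ z * inner ℝ P z ∂(gam n)) + β ^ 2 * ∫ z, φ z ^ 2 ∂(gam n) := by
        rw [hA, ← integral_const_mul, ← integral_const_mul, ← integral_const_mul,
          ← integral_const_mul, ← integral_sub i1 (i2.const_mul 2),
          ← integral_sub j1 (i3.const_mul _), ← integral_add j2 i4,
          ← integral_add j3 (i5.const_mul _), ← integral_add j4 (iφ2.const_mul _)]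
        congr 1; ext z
        ring
      rw [e, ← hPv P, hT, int_inner_sq, hz P, hsv, real_inner_self_eq_norm_sq] at h5
      nlinarith
    have hd := discrim_le_zero key
    unfold discrim at hd
    nlinarith

end Pool.Agent.Q280.FC
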