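import Pool.Agent.Q280.FC.Base

/-!
# Project FC, job CB: facts on the class `Cc`
-/

set_option autoImplicit false

open MeasureTheory

namespace Pool.Agent.Q280.FC

open Pool.Agent.Q188.FC
open Pool.Agent.W716.FV (E gam gd)

variable {n : ℕ}

theorem cc_pl {φ : E n → ℝ} (h : Cc φ) : PL φ :=
  ⟨1, 0, zero_le_one, fun x y => by simpa using h.lip x y⟩

theorem cc_lip {φ : E n → ℝ} (h : Cc φ) : LipschitzWith 1 φ :=
  LipschitzWith.of_dist_le_mul fun x y => by
    rw [Real.dist_eq, dist_eq_norm]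
    simpa using h.lip x y

theorem cc_cont {φ : E n → ℝ} (h : Cc φ) : Continuous φ := (cc_lip h).continuous

theorem cc_zero {φ : E n → ℝ} (h : Cc φ) : φ 0 = 0 := by
  have := h.hom 0 0
  simpa using this

theorem cc_le {φ : E n → ℝ} (h : Cc φ) (x : E n) : |φ x| ≤ ‖x‖ := by
  have := h.lip x 0
  rwa [cc_zero h, sub_zero, sub_zero] at this

theorem cc_odd {φ : E n → ℝ} (h : Cc φ) (x : E n) : φ (-x) = -φ x := by
  have := h.hom (-1) x
  simpa using this

theorem cc_pb {φ : E n → ℝ} (h : Cc φ) : PB φ :=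
  pb_mono pb_norm fun x => by
    rw [abs_of_nonneg (norm_nonneg x)]; exact cc_le h x

theorem cc_fd {φ : E n → ℝ} (h : Cc φ) (x : E n) : ‖fderiv ℝ φ x‖ ≤ 1 := by
  have := norm_fderiv_le_of_lipschitz ℝ (cc_lip h) (x₀ := x)
  simpa using this

theorem cc_euler {φ : E n → ℝ} (h : Cc φ) (x : E n) (hd : DifferentiableAt ℝ φ x) :
    fderiv ℝ φ x x = φ x := by
  have h1 : HasDerivAt (fun t : ℝ => t • x) x 1 := by
    simpa using (hasDerivAt_id (1 : ℝ)).smul_const x
  have hd' : HasFDerivAt φ (fderiv ℝ φ x) ((1 : ℝ) • x) := by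
    rw [one_smul]; exact hd.hasFDerivAt
  have h2 : HasDerivAt (fun t : ℝ => φ (t • x)) (fderiv ℝ φ x x) 1 :=
    hd'.comp_hasDerivAt 1 h1
  have h3 : HasDerivAt (fun t : ℝ => φ (t • x)) (φ x) 1 := by
    have : (fun t : ℝ => φ (t • x)) = fun t => t * φ x := by
      ext t; exact h.hom t x
    rw [this]
    simpa using (hasDerivAt_id (1 : ℝ)).mul_const (φ x)
  exact h2.unique h3

theorem cc_ints {φ : E n → ℝ} (h : Cc φ) : Integrable (fun z => φ z • z) (gam n) := by
  apply pb_intv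
  · exact ((cc_cont h).smul continuous_id).aestronglyMeasurable
  · refine pb_mono (pb_mul pb_norm pb_norm) fun x => ?_
    rw [abs_of_nonneg (norm_nonneg _), norm_smul, Real.norm_eq_abs, abs_mul,
      abs_of_nonneg (norm_nonneg x)]
    exact mul_le_mul_of_nonneg_right (cc_le h x) (norm_nonneg x)

/-- `⟨∫ f z, u⟩ = ∫ f ⟨u, z⟩` -/
theorem inner_int {f : E n → ℝ} (hf : Continuous f) (hb : PB f) (u : E n) :
    (inner ℝ (∫ z, f z • z ∂(gam n)) u : ℝ) = ∫ z, f z * inner ℝ u z ∂(gam n) := by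
  have hi : Integrable (fun z => f z • z) (gam n) := by
    apply pb_intv
    · exact (hf.smul continuous_id).aestronglyMeasurable
    · refine pb_mono (pb_mul hb pb_norm) fun x => ?_
      rw [abs_of_nonneg (norm_nonneg _), norm_smul, Real.norm_eq_abs, abs_mul,
        abs_of_nonneg (norm_nonneg x)]
  rw [real_inner_comm, ← integral_inner hi u]
  congr 1; ext z
  rw [inner_smul_right]

theorem int_inner_sq (u : E n) : ∫ z, (inner ℝ u z : ℝ) ^ 2 ∂(gam n) = ‖u‖ ^ 2 := by
  have h := (Pool.Agent.W933.FVGM.main n).2.2.2.1 u u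
  rw [real_inner_self_eq_norm_sq] at h
  rw [← h]
  congr 1; ext z
  rw [real_inner_comm, sq]

theorem mainCB (_h1 : PLBasic) : CcBasic := by
  intro n φ h
  have hc : Continuous φ := cc_cont h
  have hi : ∀ u : E n, (inner ℝ (mv φ) u : ℝ) = ∫ z, φ z * inner ℝ u z ∂(gam n) :=
    fun u => inner_int hc (cc_pb h) u
  refine ⟨cc_pl h, hc, cc_le h, cc_odd h, cc_fd h, cc_euler h, hi, fun u => ?_, ?_⟩
  · rw [hi u, ← int_inner_sq u]
    apply cs
    · exact pb_intc (hc.pow 2) (pb_pow (cc_pb h) 2)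
    · exact pb_intc ((continuous_const.inner continuous_id).pow 2) (pb_pow (pb_inner u) 2)
    · exact pb_intc (hc.mul (continuous_const.inner continuous_id)) (pb_mul (cc_pb h) (pb_inner u))
  · exact integral_nonneg fun z => sq_nonneg _

end Pool.Agent.Q280.FC
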