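import Pool.Agent.Q280.FC.Base

/-!
# Project FC, job SP: the spectral inequalities
-/

set_option autoImplicit false

open MeasureTheory

namespace Pool.Agent.Q280.FC

open Pool.Agent.Q188.FC
open Pool.Agent.W716.FV (E gam gd)

variable {n : ℕ}

theorem fd_comp_neg (h : E n → ℝ) (x : E n) :
    fderiv ℝ (fun x => h (-x)) x = -fderiv ℝ h (-x) := by
  have := (ContinuousLinearEquiv.neg ℝ (M := E n)).comp_right_fderiv (f := h) (x := x)
  have e : (h ∘ (ContinuousLinearEquiv.neg ℝ (M := E n))) = fun x => h (-x) := by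
    ext y; simp
  rw [e] at this
  rw [this]
  ext v
  simp

theorem fd_even {h : E n → ℝ} (ho : ∀ x, h (-x) = -h x) (x : E n) :
    fderiv ℝ h (-x) = fderiv ℝ h x := by
  have h1 := fd_comp_neg h x
  have e : (fun x => h (-x)) = fun x => -h x := by ext y; exact ho y
  rw [e, fderiv_fun_neg] at h1
  exact (neg_injective h1).symm

theorem fd_odd {h : E n → ℝ} (ho : ∀ x, h (-x) = h x) (x : E n) :
    fderiv ℝ h (-x) = -fderiv ℝ h x := by
  have h1 := fd_comp_neg h x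
  have e : (fun x => h (-x)) = h := by ext y; exact ho y
  rw [e] at h1
  rw [h1, neg_neg]

theorem norm_sq_fun (L : E n →L[ℝ] ℝ) :
    ‖L‖ ^ 2 = ∑ i, L (EuclideanSpace.single i 1) ^ 2 := by
  set v : E n := (InnerProductSpace.toDual ℝ (E n)).symm L with hv
  have h1 : ‖v‖ = ‖L‖ := by rw [hv, LinearIsometryEquiv.norm_map]
  have h2 : ∀ w : E n, inner ℝ v w = L w := fun w => by
    rw [hv, InnerProductSpace.toDual_symm_apply]
  rw [← h1, EuclideanSpace.real_norm_sq_eq]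
  refine Finset.sum_congr rfl fun i _ => ?_
  rw [← h2, EuclideanSpace.inner_single_right]
  simp

theorem sq_one {ρ : ℝ} (h0 : 0 ≤ ρ) (h1 : ρ ≤ 1) : ρ ^ 2 + √(1 - ρ ^ 2) ^ 2 = 1 := by
  rw [Real.sq_sqrt (by nlinarith)]
  ring

theorem int_fst {f : E n → ℝ} (hf : Integrable f (gam n)) :
    Integrable (fun w : E n × E n => f w.1) ((gam n).prod (gam n)) := by
  have := gprob n
  exact hf.comp_fst (gam n)

theorem int_rot {f : E n → ℝ} (hf : Integrable f (gam n)) {ρ σ : ℝ} (h : ρ ^ 2 + σ ^ 2 = 1) :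
    Integrable (fun w : E n × E n => f (ρ • w.1 + σ • w.2)) ((gam n).prod (gam n)) :=
  (law h).integrable_comp_of_integrable hf

theorem integral_rot {f : E n → ℝ} (hf : Measurable f) {ρ σ : ℝ} (h : ρ ^ 2 + σ ^ 2 = 1) :
    ∫ w : E n × E n, f (ρ • w.1 + σ • w.2) ∂((gam n).prod (gam n)) = ∫ x, f x ∂(gam n) := by
  have h1 := (law (n := n) h).map_eq
  conv_rhs => rw [← h1]
  rw [integral_map (law h).measurable.aemeasurable hf.aestronglyMeasurable]

theorem integral_fst' {f : E n → ℝ} (hf : Measurable f) :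
    ∫ w : E n × E n, f w.1 ∂((gam n).prod (gam n)) = ∫ x, f x ∂(gam n) := by
  have := integral_rot hf (ρ := 1) (σ := 0) (by norm_num)
  simpa using this

theorem cor_int {F : E n → ℝ} (hF : Measurable F) (hb : PB F) {ρ σ : ℝ}
    (h : ρ ^ 2 + σ ^ 2 = 1) :
    Integrable (fun w : E n × E n => F w.1 * F (ρ • w.1 + σ • w.2))
      ((gam n).prod (gam n)) := by
  have hF2 : Integrable (fun x => F x ^ 2) (gam n) := pb_intm (hF.pow_const 2) (pb_pow hb 2)
  refine ((int_fst hF2).add (int_rot hF2 h)).mono' ?_ (Filter.Eventually.of_forall fun w => ?_)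
  · exact ((hF.comp measurable_fst).mul (hF.comp (law (n := n) h).measurable)).aestronglyMeasurable
  · simp only [Pi.add_apply, Real.norm_eq_abs]
    rw [abs_le]
    constructor <;> nlinarith [sq_nonneg (F w.1 + F (ρ • w.1 + σ • w.2)),
      sq_nonneg (F w.1 - F (ρ • w.1 + σ • w.2)), sq_nonneg (F w.1),
      sq_nonneg (F (ρ • w.1 + σ • w.2))]

theorem cor_eq {F : E n → ℝ} (hF : Measurable F) (hb : PB F) {ρ : ℝ} (h0 : 0 ≤ ρ)
    (h1 : ρ ≤ 1) : cor F ρ =
      ∫ w : E n × E n, F w.1 * F (ρ • w.1 + √(1 - ρ ^ 2) • w.2) ∂((gam n).prod (gam n)) := by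
  have := gprob n
  unfold cor
  rw [integral_prod _ (cor_int hF hb (sq_one h0 h1))]

theorem cor_sub {F : E n → ℝ} (hF : Measurable F) (hb : PB F) {ρ : ℝ} (h0 : 0 ≤ ρ)
    (h1 : ρ ≤ 1) (c : ℝ) : cor (fun x => F x - c) ρ =
      cor F ρ - 2 * c * (∫ x, F x ∂(gam n)) + c ^ 2 := by
  have := gprob n
  have hs := sq_one h0 h1
  rw [cor_eq (hF.sub_const c) (pb_sub hb (pb_const c)) h0 h1, cor_eq hF hb h0 h1]
  have hi := pb_intm hF hb
  have e : ∀ w : E n × E n, (F w.1 - c) * (F (ρ • w.1 + √(1 - ρ ^ 2) • w.2) - c) =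
      ((F w.1 * F (ρ • w.1 + √(1 - ρ ^ 2) • w.2) - c * F w.1) -
        c * F (ρ • w.1 + √(1 - ρ ^ 2) • w.2)) + c ^ 2 := fun w => by ring
  simp_rw [e]
  have i1 := cor_int hF hb hs
  have i2 : Integrable (fun w : E n × E n => c * F w.1) ((gam n).prod (gam n)) :=
    (int_fst hi).const_mul c
  have i3 : Integrable (fun w : E n × E n => c * F (ρ • w.1 + √(1 - ρ ^ 2) • w.2))
      ((gam n).prod (gam n)) := (int_rot hi hs).const_mul c
  have i12 : Integrable (fun w : E n × E n =>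
      F w.1 * F (ρ • w.1 + √(1 - ρ ^ 2) • w.2) - c * F w.1) ((gam n).prod (gam n)) := i1.sub i2
  have i123 : Integrable (fun w : E n × E n =>
      F w.1 * F (ρ • w.1 + √(1 - ρ ^ 2) • w.2) - c * F w.1 -
        c * F (ρ • w.1 + √(1 - ρ ^ 2) • w.2)) ((gam n).prod (gam n)) := i12.sub i3
  rw [integral_add i123 (integrable_const _), integral_sub i12 i3, integral_sub i1 i2,
    integral_const_mul, integral_const_mul, integral_fst' hF, integral_rot hF hs]
  simp
  ring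

theorem sq_sub {F : E n → ℝ} (hF : Measurable F) (hb : PB F) :
    ∫ x, (F x - ∫ y, F y ∂(gam n)) ^ 2 ∂(gam n) =
      (∫ x, F x ^ 2 ∂(gam n)) - (∫ x, F x ∂(gam n)) ^ 2 := by
  have := gprob n
  set c := ∫ y, F y ∂(gam n) with hc
  have hi := pb_intm hF hb
  have hi2 : Integrable (fun x => F x ^ 2) (gam n) := pb_intm (hF.pow_const 2) (pb_pow hb 2)
  have e : ∀ x, (F x - c) ^ 2 = (F x ^ 2 - 2 * c * F x) + c ^ 2 := fun x => by ring
  simp_rw [e]
  have i2 : Integrable (fun x => F x ^ 2 - 2 * c * F x) (gam n) := hi2.sub (hi.const_mul _)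
  rw [integral_add i2 (integrable_const _), integral_sub hi2 (hi.const_mul _),
    integral_const_mul, ← hc]
  simp
  ring

/-- the component of the gradient -/
theorem comp_facts (h1 : PLBasic) {h : E n → ℝ} (hp : PL h) (i : Fin n) :
    Measurable (fun x => fderiv ℝ h x (EuclideanSpace.single i 1)) ∧
    PB (fun x => fderiv ℝ h x (EuclideanSpace.single i 1)) ∧
    ∫ x, fderiv ℝ h x (EuclideanSpace.single i 1) ∂(gam n) = ∫ x, x i * h x ∂(gam n) := by
  obtain ⟨-, -, -, -, hb, hm, hI⟩ := (h1 n).1 h hp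
  refine ⟨?_, ?_, ?_⟩
  · exact hm.apply_continuousLinearMap _
  · refine pb_mono hb fun x => ?_
    rw [abs_of_nonneg (norm_nonneg _)]
    have := (fderiv ℝ h x).le_opNorm (EuclideanSpace.single i 1)
    simpa using this
  · rw [← hI]
    congr 1; ext x
    rw [EuclideanSpace.inner_single_right]
    simp
    ring

theorem grad_sq (h1 : PLBasic) {h : E n → ℝ} (hp : PL h) :
    ∫ x, ‖fderiv ℝ h x‖ ^ 2 ∂(gam n) =
      ∑ i, ∫ x, fderiv ℝ h x (EuclideanSpace.single i 1) ^ 2 ∂(gam n) := by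
  rw [← integral_finsetSum]
  · congr 1; ext x
    exact norm_sq_fun _
  · intro i _
    obtain ⟨hm, hb, -⟩ := comp_facts h1 hp i
    exact pb_intm (hm.pow_const 2) (pb_pow hb 2)

theorem mainSPOdd (h1 : PLBasic) (h2 : NoiseContr) (h3 : CorDeriv) : SPOdd := by
  intro n h hp ho
  have := gprob n
  obtain ⟨hii, hid⟩ := h3 n h hp
  have h0 : ∫ x, h x ∂(gam n) = 0 := int_odd ho
  set F : Fin n → E n → ℝ := fun i x => fderiv ℝ h x (EuclideanSpace.single i 1) with hF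
  set c : Fin n → ℝ := fun i => ∫ x, x i * h x ∂(gam n) with hc
  set I : Fin n → ℝ := fun i => ∫ x, F i x ^ 2 ∂(gam n) with hI
  have hbound : ∀ ρ : ℝ, 0 ≤ ρ → ρ ≤ 1 → ∑ i, cor (F i) ρ ≤
      (∑ i, c i ^ 2) + ρ ^ 2 * ∑ i, (I i - c i ^ 2) := by
    intro ρ hρ0 hρ1
    rw [Finset.mul_sum, ← Finset.sum_add_distrib]
    refine Finset.sum_le_sum fun i _ => ?_
    obtain ⟨hm, hb, hcI⟩ := comp_facts h1 hp i
    have hcI' : ∫ x, F i x ∂(gam n) = c i := hcI
    have hz : ∫ x, (F i x - c i) ∂(gam n) = 0 := by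
      rw [integral_sub (pb_intm hm hb) (integrable_const _), hcI']
      simp
    have hk := (h2 n (fun x => F i x - c i) (hm.sub_const _) (pb_sub hb (pb_const _)) hz ρ hρ0
      hρ1).2 (fun x => by
        simp only [hF]
        rw [fd_even ho])
    rw [cor_sub hm hb hρ0 hρ1] at hk
    have hs := sq_sub hm hb
    rw [hcI'] at hs hk
    rw [hs] at hk
    simp only [hI]
    nlinarith
  have hint : ∫ ρ in (0 : ℝ)..1, ∑ i, cor (F i) ρ ≤
      ∫ ρ in (0 : ℝ)..1, ((∑ i, c i ^ 2) + ρ ^ 2 * ∑ i, (I i - c i ^ 2)) := by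
    apply intervalIntegral.integral_mono_on zero_le_one hii
    · exact Continuous.intervalIntegrable (by fun_prop) _ _
    · intro ρ hρ
      exact hbound ρ hρ.1 hρ.2
  have hval : ∫ ρ in (0 : ℝ)..1, ((∑ i, c i ^ 2) + ρ ^ 2 * ∑ i, (I i - c i ^ 2)) =
      (∑ i, c i ^ 2) + (∑ i, (I i - c i ^ 2)) / 3 := by
    rw [intervalIntegral.integral_add (by simp)
      (Continuous.intervalIntegrable (by fun_prop) _ _), intervalIntegral.integral_mul_const,
      integral_pow]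
    simp
    ring
  have hg := grad_sq h1 hp
  rw [h0] at hid
  have hgI : ∫ x, ‖fderiv ℝ h x‖ ^ 2 ∂(gam n) = ∑ i, I i := hg
  rw [hgI]
  have hid' : (∫ x, h x ^ 2 ∂(gam n)) - 0 ^ 2 = ∫ ρ in (0 : ℝ)..1, ∑ i, cor (F i) ρ := hid
  rw [hval, ← hid', Finset.sum_sub_distrib] at hint
  change 3 * (∫ x, h x ^ 2 ∂(gam n)) - 2 * ∑ i, c i ^ 2 ≤ _
  linarith

theorem mainSPEven (h1 : PLBasic) (h2 : NoiseContr) (h3 : CorDeriv) : SPEven := by
  intro n h hp ho
  have := gprob n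
  obtain ⟨hii, hid⟩ := h3 n h hp
  set F : Fin n → E n → ℝ := fun i x => fderiv ℝ h x (EuclideanSpace.single i 1) with hF
  set I : Fin n → ℝ := fun i => ∫ x, F i x ^ 2 ∂(gam n) with hI
  have hbound : ∀ ρ : ℝ, 0 ≤ ρ → ρ ≤ 1 → ∑ i, cor (F i) ρ ≤ ρ * ∑ i, I i := by
    intro ρ hρ0 hρ1
    rw [Finset.mul_sum]
    refine Finset.sum_le_sum fun i _ => ?_
    obtain ⟨hm, hb, -⟩ := comp_facts h1 hp i
    have hz : ∫ x, F i x ∂(gam n) = 0 := by
      apply int_odd
      intro x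
      simp only [hF]
      rw [fd_odd ho]
      simp
    exact (h2 n (F i) hm hb hz ρ hρ0 hρ1).1
  have hint : ∫ ρ in (0 : ℝ)..1, ∑ i, cor (F i) ρ ≤ ∫ ρ in (0 : ℝ)..1, ρ * ∑ i, I i := by
    apply intervalIntegral.integral_mono_on zero_le_one hii
    · exact Continuous.intervalIntegrable (by fun_prop) _ _
    · intro ρ hρ
      exact hbound ρ hρ.1 hρ.2
  have hval : ∫ ρ in (0 : ℝ)..1, ρ * ∑ i, I i = (∑ i, I i) / 2 := by
    rw [intervalIntegral.integral_mul_const, integral_id]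
    ring
  have hgI : ∫ x, ‖fderiv ℝ h x‖ ^ 2 ∂(gam n) = ∑ i, I i := grad_sq h1 hp
  rw [hgI]
  have hid' : (∫ x, h x ^ 2 ∂(gam n)) - (∫ x, h x ∂(gam n)) ^ 2 =
    ∫ ρ in (0 : ℝ)..1, ∑ i, cor (F i) ρ := hid
  linarith

theorem mainSP (h1 : PLBasic) (h2 : NoiseContr) (h3 : CorDeriv) : SPOdd ∧ SPEven :=
  ⟨mainSPOdd h1 h2 h3, mainSPEven h1 h2 h3⟩

end Pool.Agent.Q280.FC
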