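import Pool.Agent.Q280.FC.CB
import Pool.Agent.Q280.FC.SP

/-!
# Project FC, job XU: upper bound of `X`
-/

set_option autoImplicit false

open MeasureTheory

namespace Pool.Agent.Q280.FC

open Pool.Agent.Q188.FC
open Pool.Agent.W716.FV (E gam gd)

variable {n : ℕ}

theorem fd_inner (u z : E n) : HasFDerivAt (fun z => (inner ℝ u z : ℝ)) (innerSL ℝ u) z := by
  simpa using (innerSL ℝ u).hasFDerivAt (x := z)

theorem toDual_eq (u : E n) : innerSL ℝ u = (InnerProductSpace.toDual ℝ (E n)) u := by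
  ext v
  simp

theorem norm_lin (a b : ℝ) (u : E n) (L : E n →L[ℝ] ℝ) :
    ‖a • innerSL ℝ u + b • L‖ ^ 2 = a ^ 2 * ‖u‖ ^ 2 + 2 * a * b * L u + b ^ 2 * ‖L‖ ^ 2 := by
  set v : E n := (InnerProductSpace.toDual ℝ (E n)).symm L with hv
  have h1 : ‖v‖ = ‖L‖ := by rw [hv, LinearIsometryEquiv.norm_map]
  have h2 : L = (InnerProductSpace.toDual ℝ (E n)) v := by rw [hv, LinearIsometryEquiv.apply_symm_apply]
  have h3 : L u = inner ℝ v u := by rw [hv, InnerProductSpace.toDual_symm_apply]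
  have h4 : a • innerSL ℝ u + b • L = (InnerProductSpace.toDual ℝ (E n)) (a • u + b • v) := by
    rw [toDual_eq, h2]
    ext w
    simp
  rw [h4, LinearIsometryEquiv.norm_map, norm_add_sq_real, ← h1, h3, norm_smul, norm_smul, mul_pow,
    mul_pow, inner_smul_left, inner_smul_right, real_inner_comm u v]
  simp only [Real.norm_eq_abs, sq_abs, conj_trivial]
  ring

theorem cc_s_le (h2 : CcBasic) (h3 : SPOdd) {φ : E n → ℝ} (h : Cc φ) : sv φ ≤ 1 := by
  have := gprob n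
  obtain ⟨hpl, hc, hle, ho, hfd, -, hin, hcs, hs0⟩ := h2 n φ h
  have hsp := h3 n φ hpl ho
  have e1 : ∑ i, (∫ x, x i * φ x ∂(gam n)) ^ 2 = ‖mv φ‖ ^ 2 := by
    rw [EuclideanSpace.real_norm_sq_eq]
    refine Finset.sum_congr rfl fun i _ => ?_
    have h5 := hin (EuclideanSpace.single i 1)
    rw [EuclideanSpace.inner_single_right] at h5
    have h6 : (mv φ) i = ∫ x, x i * φ x ∂(gam n) := by
      rw [one_mul, conj_trivial] at h5
      rw [h5]
      congr 1; ext z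
      rw [EuclideanSpace.inner_single_left]
      simp
      ring
    rw [h6]
  have e2 : ‖mv φ‖ ^ 2 ≤ sv φ := by
    have h5 := hcs (mv φ)
    rw [real_inner_self_eq_norm_sq] at h5
    rcases (sq_nonneg ‖mv φ‖).eq_or_lt with h6 | h6
    · rw [← h6]; exact hs0
    · have h7 : ‖mv φ‖ ^ 2 * ‖mv φ‖ ^ 2 ≤ sv φ * ‖mv φ‖ ^ 2 := by nlinarith
      exact le_of_mul_le_mul_right h7 h6
  have e3 : ∫ x, ‖fderiv ℝ φ x‖ ^ 2 ∂(gam n) ≤ 1 := by
    have : ∫ x, ‖fderiv ℝ φ x‖ ^ 2 ∂(gam n) ≤ ∫ x, (1 : ℝ) ∂(gam n) := by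
      refine integral_mono_of_nonneg (Filter.Eventually.of_forall fun x => sq_nonneg _)
        (integrable_const _) (Filter.Eventually.of_forall fun x => ?_)
      have := hfd x
      exact pow_le_one₀ (norm_nonneg _) this
    simpa using this
  rw [e1] at hsp
  have e4 : ∫ x, φ x ^ 2 ∂(gam n) = sv φ := rfl
  rw [e4] at hsp
  linarith

/-- measurability and growth of `Dφ(u)` -/
theorem dv_facts (h1 : PLBasic) {h : E n → ℝ} (hp : PL h) (u : E n) :
    Measurable (fun x => fderiv ℝ h x u) ∧ PB (fun x => fderiv ℝ h x u) := by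
  obtain ⟨-, -, -, -, hb, hm, -⟩ := (h1 n).1 h hp
  refine ⟨hm.apply_continuousLinearMap _, pb_mono (pb_mul hb (pb_const ‖u‖)) fun x => ?_⟩
  rw [abs_of_nonneg (by positivity : 0 ≤ ‖fderiv ℝ h x‖ * ‖u‖)]
  exact (fderiv ℝ h x).le_opNorm u

theorem qX_eq {φ : E n → ℝ} (h : Cc φ) (u : E n) :
    ∫ z, (inner ℝ u z : ℝ) ^ 2 * φ z ^ 2 ∂(gam n) = 2 * qX φ u u + ‖u‖ ^ 2 * sv φ := by
  have hc := cc_cont h
  have i1 : Integrable (fun z : E n => (inner ℝ u z : ℝ) ^ 2 * φ z ^ 2) (gam n) :=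
    pb_intc (((continuous_const.inner continuous_id).pow 2).mul (hc.pow 2))
      (pb_mul (pb_pow (pb_inner u) 2) (pb_pow (cc_pb h) 2))
  have i2 : Integrable (fun z : E n => φ z ^ 2) (gam n) :=
    pb_intc (hc.pow 2) (pb_pow (cc_pb h) 2)
  have e : ∫ z, (inner ℝ u z * inner ℝ u z - inner ℝ u u) * φ z ^ 2 ∂(gam n) =
      (∫ z, (inner ℝ u z : ℝ) ^ 2 * φ z ^ 2 ∂(gam n)) - ‖u‖ ^ 2 * ∫ z, φ z ^ 2 ∂(gam n) := by
    rw [← integral_const_mul, ← integral_sub i1 (i2.const_mul _)]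
    congr 1; ext z
    rw [real_inner_self_eq_norm_sq]
    ring
  unfold qX sv
  rw [e]
  ring

theorem mainXU (h1 : PLBasic) (h2 : CcBasic) (h3 : SPOdd) (h4 : SPEven) : XUp := by
  intro n φ h
  have := gprob n
  have hs1 := cc_s_le h2 h3 h
  refine ⟨hs1, fun u => ?_⟩
  obtain ⟨hpl, hc, hle, ho, hfd, -, hin, hcs, hs0⟩ := h2 n φ h
  have hpb := cc_pb h
  have hcu : Continuous (fun z : E n => (inner ℝ u z : ℝ)) := continuous_const.inner continuous_id
  have hplu : PL (fun z : E n => (inner ℝ u z : ℝ)) := (h1 n).2.2.2.2.1 u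
  have hplh : PL (fun z : E n => (inner ℝ u z : ℝ) * φ z) := ((h1 n).2.1 _ _ hplu hpl).2.2
  have hplk : PL (fun z : E n => (inner ℝ u z : ℝ) * φ z * φ z) :=
    ((h1 n).2.1 _ _ hplh hpl).2.2
  have hdiff : ∀ᵐ z ∂(gam n), DifferentiableAt ℝ φ z := ((h1 n).1 φ hpl).2.2.1
  obtain ⟨hDm, hDb⟩ := dv_facts h1 hpl u
  -- the integral of `h²`
  have hq := qX_eq h u
  -- integration by parts
  have hibp := ((h1 n).1 _ hplk).2.2.2.2.2.2 u
  have iA : Integrable (fun z : E n => ‖u‖ ^ 2 * φ z ^ 2) (gam n) :=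
    (pb_intc (hc.pow 2) (pb_pow hpb 2)).const_mul _
  have iB : Integrable (fun z : E n => 2 * (inner ℝ u z * φ z * fderiv ℝ φ z u)) (gam n) :=
    (pb_intm ((hcu.mul hc).measurable.mul hDm)
      (pb_mul (pb_mul (pb_inner u) hpb) hDb)).const_mul 2
  have iC : Integrable (fun z : E n => (inner ℝ u z : ℝ) ^ 2) (gam n) :=
    pb_intc (hcu.pow 2) (pb_pow (pb_inner u) 2)
  have hB : ∫ z, 2 * (inner ℝ u z * φ z * fderiv ℝ φ z u) ∂(gam n) = 2 * qX φ u u := by
    have e1 : ∫ z, inner ℝ u z * φ z * φ z * inner ℝ z u ∂(gam n) =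
        ∫ z, (inner ℝ u z : ℝ) ^ 2 * φ z ^ 2 ∂(gam n) := by
      congr 1; ext z
      rw [real_inner_comm u z]
      ring
    have e2 : ∫ z, fderiv ℝ (fun z : E n => (inner ℝ u z : ℝ) * φ z * φ z) z u ∂(gam n) =
        (∫ z, ‖u‖ ^ 2 * φ z ^ 2 ∂(gam n)) +
          ∫ z, 2 * (inner ℝ u z * φ z * fderiv ℝ φ z u) ∂(gam n) := by
      rw [← integral_add iA iB]
      apply integral_congr_ae
      filter_upwards [hdiff] with z hz
      have hd := ((fd_inner u z).fun_mul hz.hasFDerivAt).fun_mul hz.hasFDerivAt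
      rw [hd.fderiv]
      simp only [add_apply, smul_apply, innerSL_apply_apply, smul_eq_mul, real_inner_self_eq_norm_sq]
      ring
    rw [e1, e2, hq, integral_const_mul] at hibp
    have e3 : ∫ x, φ x ^ 2 ∂(gam n) = sv φ := rfl
    rw [e3] at hibp
    linarith
  -- the gradient
  have hG : ∫ z, ‖fderiv ℝ (fun z : E n => (inner ℝ u z : ℝ) * φ z) z‖ ^ 2 ∂(gam n) ≤
      ‖u‖ ^ 2 * sv φ + 2 * qX φ u u + ‖u‖ ^ 2 := by
    have e0 : ‖u‖ ^ 2 * sv φ + 2 * qX φ u u + ‖u‖ ^ 2 =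
        ∫ z, (‖u‖ ^ 2 * φ z ^ 2 + 2 * (inner ℝ u z * φ z * fderiv ℝ φ z u)) +
          (inner ℝ u z : ℝ) ^ 2 ∂(gam n) := by
      have iAB : Integrable (fun z : E n => ‖u‖ ^ 2 * φ z ^ 2 +
        2 * (inner ℝ u z * φ z * fderiv ℝ φ z u)) (gam n) := iA.add iB
      rw [integral_add iAB iC, integral_add iA iB, hB, int_inner_sq, integral_const_mul]
      rfl
    rw [e0]
    refine integral_mono_of_nonneg (Filter.Eventually.of_forall fun x => sq_nonneg _)
      ((iA.add iB).add iC) ?_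
    filter_upwards [hdiff] with z hz
    have hd := (fd_inner u z).fun_mul hz.hasFDerivAt
    rw [hd.fderiv, add_comm (inner ℝ u z • fderiv ℝ φ z), norm_lin]
    have h5 : ‖fderiv ℝ φ z‖ ^ 2 ≤ 1 := pow_le_one₀ (norm_nonneg _) (hfd z)
    have h6 := mul_le_mul_of_nonneg_left h5 (sq_nonneg (inner ℝ u z : ℝ))
    nlinarith
  have hsp := h4 n (fun z : E n => (inner ℝ u z : ℝ) * φ z) hplh (fun x => by
    simp only [inner_neg_right, ho]
    ring)
  have eh2 : ∫ x, (fun z : E n => (inner ℝ u z : ℝ) * φ z) x ^ 2 ∂(gam n) =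
      2 * qX φ u u + ‖u‖ ^ 2 * sv φ := by
    rw [← hq]
    congr 1; ext z
    ring
  have eh1 : ∫ x, (fun z : E n => (inner ℝ u z : ℝ) * φ z) x ∂(gam n) = inner ℝ (mv φ) u := by
    rw [hin u]
    congr 1; ext z
    simp only
    ring
  rw [eh2, eh1] at hsp
  have hμ := hcs u
  have hu0 : 0 ≤ ‖u‖ ^ 2 := sq_nonneg _
  constructor
  · nlinarith
  · intro hm
    rw [hm, inner_zero_left] at hsp
    nlinarith

end Pool.Agent.Q280.FC
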