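import Pool.Agent.Q188.FC.StmG
import Pool.Agent.W933.FV.GM

/-!
# Project FC: tools for Gaussian integrals of polynomially bounded functions
-/

set_option autoImplicit false

open MeasureTheory

namespace Pool.Agent.Q280.FC

open Pool.Agent.Q188.FC
open Pool.Agent.W716.FV (E gam gd)

variable {n : ℕ}

theorem gprob (n : ℕ) : IsProbabilityMeasure (gam n) := (Pool.Agent.W933.FVGM.main n).1

/-! ### polynomially bounded functions -/

theorem pb_mono {f g : E n → ℝ} (hg : PB g) (h : ∀ x, |f x| ≤ |g x|) : PB f := by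
  obtain ⟨C, m, hC, hb⟩ := hg
  exact ⟨C, m, hC, fun x => (h x).trans (hb x)⟩

theorem pb_const (c : ℝ) : PB (fun _ : E n => c) :=
  ⟨|c|, 0, abs_nonneg c, fun x => by simp⟩

theorem pb_norm : PB (fun x : E n => ‖x‖) :=
  ⟨1, 1, zero_le_one, fun x => by
    rw [abs_of_nonneg (norm_nonneg x)]; linarith [norm_nonneg x]⟩

theorem pb_mul {f g : E n → ℝ} (hf : PB f) (hg : PB g) : PB (fun x => f x * g x) := by
  obtain ⟨C, m, hC, hb⟩ := hf
  obtain ⟨D, k, hD, hd⟩ := hg
  refine ⟨C * D, m + k, mul_nonneg hC hD, fun x => ?_⟩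
  rw [abs_mul]
  calc |f x| * |g x| ≤ (C * (1 + ‖x‖) ^ m) * (D * (1 + ‖x‖) ^ k) :=
        mul_le_mul (hb x) (hd x) (abs_nonneg _) ((abs_nonneg _).trans (hb x))
    _ = C * D * (1 + ‖x‖) ^ (m + k) := by rw [pow_add]; ring

theorem pb_add {f g : E n → ℝ} (hf : PB f) (hg : PB g) : PB (fun x => f x + g x) := by
  obtain ⟨C, m, hC, hb⟩ := hf
  obtain ⟨D, k, hD, hd⟩ := hg
  refine ⟨C + D, m + k, add_nonneg hC hD, fun x => ?_⟩
  have h1 : (1 : ℝ) ≤ 1 + ‖x‖ := by linarith [norm_nonneg x]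
  calc |f x + g x| ≤ |f x| + |g x| := abs_add_le _ _
    _ ≤ C * (1 + ‖x‖) ^ m + D * (1 + ‖x‖) ^ k := add_le_add (hb x) (hd x)
    _ ≤ C * (1 + ‖x‖) ^ (m + k) + D * (1 + ‖x‖) ^ (m + k) := by
        have e1 : (1 + ‖x‖) ^ m ≤ (1 + ‖x‖) ^ (m + k) := pow_le_pow_right₀ h1 (by omega)
        have e2 : (1 + ‖x‖) ^ k ≤ (1 + ‖x‖) ^ (m + k) := pow_le_pow_right₀ h1 (by omega)
        exact add_le_add (mul_le_mul_of_nonneg_left e1 hC) (mul_le_mul_of_nonneg_left e2 hD)
    _ = (C + D) * (1 + ‖x‖) ^ (m + k) := by ring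

theorem pb_neg {f : E n → ℝ} (hf : PB f) : PB (fun x => -f x) :=
  pb_mono hf fun x => by rw [abs_neg]

theorem pb_sub {f g : E n → ℝ} (hf : PB f) (hg : PB g) : PB (fun x => f x - g x) := by
  have := pb_add hf (pb_neg hg)
  exact pb_mono this fun x => by rw [sub_eq_add_neg]

theorem pb_pow {f : E n → ℝ} (hf : PB f) (k : ℕ) : PB (fun x => f x ^ k) := by
  induction k with
  | zero => simpa using pb_const (n := n) 1
  | succ k ih =>
      have := pb_mul ih hf
      exact pb_mono this fun x => by rw [pow_succ]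

theorem pb_inner (u : E n) : PB (fun x : E n => (inner ℝ u x : ℝ)) := by
  have := pb_mul (pb_const (n := n) ‖u‖) pb_norm
  refine pb_mono this fun x => ?_
  rw [abs_mul, abs_of_nonneg (norm_nonneg u), abs_of_nonneg (norm_nonneg x)]
  exact abs_real_inner_le_norm u x

theorem pb_apply (i : Fin n) : PB (fun x : E n => x i) := by
  refine pb_mono pb_norm fun x => ?_
  rw [abs_of_nonneg (norm_nonneg x)]
  simpa using PiLp.norm_apply_le x i

theorem pb_sum {ι : Type} (s : Finset ι) {f : ι → E n → ℝ} (hf : ∀ i ∈ s, PB (f i)) :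
    PB (fun x => ∑ i ∈ s, f i x) := by
  classical
  induction s using Finset.induction_on with
  | empty => simpa using pb_const (n := n) 0
  | insert a s ha ih =>
      have h1 := hf a (Finset.mem_insert_self a s)
      have h2 := ih fun i hi => hf i (Finset.mem_insert_of_mem hi)
      have := pb_add h1 h2
      exact pb_mono this fun x => by rw [Finset.sum_insert ha]

theorem int_pow (n m : ℕ) : Integrable (fun x : E n => (1 + ‖x‖) ^ m) (gam n) := by
  have := gprob n
  have h0 : Integrable (fun x : E n => (2 : ℝ) ^ m * (1 + ‖x‖ ^ m)) (gam n) :=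
    ((integrable_const _).add ((Pool.Agent.W933.FVGM.main n).2.1 m)).const_mul _
  refine h0.mono' (by fun_prop) (Filter.Eventually.of_forall fun x => ?_)
  have hx := norm_nonneg x
  rw [Real.norm_of_nonneg (by positivity)]
  rcases le_total ‖x‖ 1 with h | h
  · calc (1 + ‖x‖) ^ m ≤ 2 ^ m := pow_le_pow_left₀ (by positivity) (by linarith) m
      _ ≤ 2 ^ m * (1 + ‖x‖ ^ m) := by
        have : (0 : ℝ) ≤ ‖x‖ ^ m := by positivity
        nlinarith [pow_pos (two_pos : (0 : ℝ) < 2) m]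
  · calc (1 + ‖x‖) ^ m ≤ (2 * ‖x‖) ^ m := pow_le_pow_left₀ (by positivity) (by linarith) m
      _ = 2 ^ m * ‖x‖ ^ m := by rw [mul_pow]
      _ ≤ 2 ^ m * (1 + ‖x‖ ^ m) := by
        nlinarith [pow_pos (two_pos : (0 : ℝ) < 2) m]

theorem pb_int {f : E n → ℝ} (hm : AEStronglyMeasurable f (gam n)) (hf : PB f) :
    Integrable f (gam n) := by
  obtain ⟨C, m, hC, hb⟩ := hf
  exact ((int_pow n m).const_mul C).mono' hm (Filter.Eventually.of_forall fun x => by
    simpa using hb x)

theorem pb_intm {f : E n → ℝ} (hm : Measurable f) (hf : PB f) : Integrable f (gam n) :=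
  pb_int hm.aestronglyMeasurable hf

theorem pb_intc {f : E n → ℝ} (hm : Continuous f) (hf : PB f) : Integrable f (gam n) :=
  pb_int hm.aestronglyMeasurable hf

/-- vector valued -/
theorem pb_intv {f : E n → E n} (hm : AEStronglyMeasurable f (gam n))
    (hf : PB (fun x => ‖f x‖)) : Integrable f (gam n) := by
  obtain ⟨C, m, hC, hb⟩ := hf
  exact ((int_pow n m).const_mul C).mono' hm (Filter.Eventually.of_forall fun x => by
    have := hb x
    rwa [abs_of_nonneg (norm_nonneg _)] at this)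

/-! ### Cauchy-Schwarz -/

theorem cs {α : Type*} [MeasurableSpace α] {μ : Measure α} {f g : α → ℝ}
    (hf : Integrable (fun x => f x ^ 2) μ) (hg : Integrable (fun x => g x ^ 2) μ)
    (hfg : Integrable (fun x => f x * g x) μ) :
    (∫ x, f x * g x ∂μ) ^ 2 ≤ (∫ x, f x ^ 2 ∂μ) * ∫ x, g x ^ 2 ∂μ := by
  have key : ∀ t : ℝ, 0 ≤ (∫ x, f x ^ 2 ∂μ) * (t * t) + (2 * ∫ x, f x * g x ∂μ) * t +
      ∫ x, g x ^ 2 ∂μ := by
    intro t
    have h0 : 0 ≤ ∫ x, (t * f x + g x) ^ 2 ∂μ := integral_nonneg fun x => sq_nonneg _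
    have h1 : ∫ x, (t * f x + g x) ^ 2 ∂μ =
        (t * t * ∫ x, f x ^ 2 ∂μ) + (2 * t * ∫ x, f x * g x ∂μ) + ∫ x, g x ^ 2 ∂μ := by
      have h12 : Integrable (fun x => t * t * f x ^ 2 + 2 * t * (f x * g x)) μ :=
        (hf.const_mul (t * t)).add (hfg.const_mul (2 * t))
      rw [← integral_const_mul, ← integral_const_mul,
        ← integral_add (hf.const_mul _) (hfg.const_mul _), ← integral_add h12 hg]
      congr 1; ext x
      ring
    rw [h1] at h0
    linarith
  have := discrim_le_zero key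
  unfold discrim at this
  nlinarith

/-! ### symmetry and rotations -/

theorem meas_gd (n : ℕ) : Measurable (gd n) := (Pool.Agent.W933.FVGM.continuous_gd n).measurable

theorem mp_neg (n : ℕ) : MeasurePreserving (fun x : E n => -x) (gam n) (gam n) := by
  refine ⟨measurable_neg, ?_⟩
  have h0 : MeasurePreserving (fun x : E n => -x) volume volume :=
    Measure.measurePreserving_neg _
  ext s hs
  rw [Measure.map_apply measurable_neg hs]
  unfold gam
  rw [withDensity_apply _ (measurable_neg hs), withDensity_apply _ hs]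
  have h1 : ∀ x : E n, gd n (-x) = gd n x := fun x => by unfold gd; rw [norm_neg]
  rw [← h0.setLIntegral_comp_preimage hs ((meas_gd n).ennreal_ofReal)]
  simp only [h1]

theorem int_neg {f : E n → ℝ} : ∫ x, f (-x) ∂(gam n) = ∫ x, f x ∂(gam n) := by
  have e : MeasurableEmbedding (fun x : E n => -x) := (MeasurableEquiv.neg (E n)).measurableEmbedding
  exact (mp_neg n).integral_comp e f

theorem int_odd {f : E n → ℝ} (hf : ∀ x, f (-x) = -f x) : ∫ x, f x ∂(gam n) = 0 := by
  have h := int_neg (f := f)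
  simp only [hf, integral_neg] at h
  linarith

/-- the rotation `(x, y) ↦ (ρ x + σ y, σ x - ρ y)` -/
noncomputable def rot (n : ℕ) (ρ σ : ℝ) : (E n × E n) →ₗ[ℝ] (E n × E n) where
  toFun w := (ρ • w.1 + σ • w.2, σ • w.1 - ρ • w.2)
  map_add' a b := by ext <;> simp <;> ring
  map_smul' c a := by ext <;> simp <;> ring

theorem rot_apply (ρ σ : ℝ) (w : E n × E n) :
    rot n ρ σ w = (ρ • w.1 + σ • w.2, σ • w.1 - ρ • w.2) := rfl

theorem rot_rot {ρ σ : ℝ} (h : ρ ^ 2 + σ ^ 2 = 1) (w : E n × E n) :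
    rot n ρ σ (rot n ρ σ w) = w := by
  rw [rot_apply, rot_apply]
  have h1 : ρ * ρ + σ * σ = 1 := by nlinarith
  ext i
  · simp only [PiLp.add_apply, PiLp.smul_apply, PiLp.sub_apply, smul_eq_mul]
    linear_combination (w.1 i) * h1
  · simp only [PiLp.add_apply, PiLp.smul_apply, PiLp.sub_apply, smul_eq_mul]
    linear_combination (w.2 i) * h1

theorem rot_norm {ρ σ : ℝ} (h : ρ ^ 2 + σ ^ 2 = 1) (w : E n × E n) :
    ‖(rot n ρ σ w).1‖ ^ 2 + ‖(rot n ρ σ w).2‖ ^ 2 = ‖w.1‖ ^ 2 + ‖w.2‖ ^ 2 := by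
  rw [rot_apply]
  simp only
  rw [norm_add_sq_real, norm_sub_sq_real]
  simp only [norm_smul, mul_pow, inner_smul_left, inner_smul_right, Real.norm_eq_abs, sq_abs,
    conj_trivial]
  linear_combination (‖w.1‖ ^ 2 + ‖w.2‖ ^ 2) * h

theorem rot_vol {ρ σ : ℝ} (h : ρ ^ 2 + σ ^ 2 = 1) :
    MeasurePreserving (rot n ρ σ) (volume : Measure (E n × E n)) volume := by
  have hdet : LinearMap.det (rot n ρ σ) * LinearMap.det (rot n ρ σ) = 1 := by
    rw [← map_mul]
    have : rot n ρ σ * rot n ρ σ = 1 := by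
      apply LinearMap.ext
      intro w
      simpa using rot_rot h w
    rw [this, map_one]
  have hd0 : LinearMap.det (rot n ρ σ) ≠ 0 := by
    intro h0
    rw [h0] at hdet
    simp at hdet
  have hab : |LinearMap.det (rot n ρ σ)| = 1 := by
    have h2 : |LinearMap.det (rot n ρ σ)| * |LinearMap.det (rot n ρ σ)| = 1 := by
      rw [← abs_mul, hdet, abs_one]
    nlinarith [abs_nonneg (LinearMap.det (rot n ρ σ))]
  refine ⟨(LinearMap.continuous_of_finiteDimensional _).measurable, ?_⟩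
  have hH : (volume : Measure (E n × E n)).IsAddHaarMeasure :=
    inferInstanceAs (((volume : Measure (E n)).prod volume).IsAddHaarMeasure)
  rw [Measure.map_linearMap_addHaar_eq_smul_addHaar volume hd0]
  rw [abs_inv, hab]
  simp

theorem prod_gam (n : ℕ) : (gam n).prod (gam n) =
    (volume : Measure (E n × E n)).withDensity
      (fun w => ENNReal.ofReal (gd n w.1) * ENNReal.ofReal (gd n w.2)) := by
  unfold gam
  rw [prod_withDensity (meas_gd n).ennreal_ofReal (meas_gd n).ennreal_ofReal]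
  rfl

theorem rot_gam {ρ σ : ℝ} (h : ρ ^ 2 + σ ^ 2 = 1) :
    MeasurePreserving (rot n ρ σ) ((gam n).prod (gam n)) ((gam n).prod (gam n)) := by
  have h0 := rot_vol (n := n) h
  refine ⟨h0.measurable, ?_⟩
  have hgd : ∀ w : E n × E n, ENNReal.ofReal (gd n (rot n ρ σ w).1) *
      ENNReal.ofReal (gd n (rot n ρ σ w).2) =
      ENNReal.ofReal (gd n w.1) * ENNReal.ofReal (gd n w.2) := by
    intro w
    rw [← ENNReal.ofReal_mul (Pool.Agent.W933.FVGM.gd_nonneg n _),
      ← ENNReal.ofReal_mul (Pool.Agent.W933.FVGM.gd_nonneg n _)]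
    congr 1
    unfold gd
    rw [mul_mul_mul_comm, mul_mul_mul_comm _ (Real.exp (-‖w.1‖ ^ 2 / 2)), ← Real.exp_add,
      ← Real.exp_add]
    congr 2
    have := rot_norm h w
    linarith
  ext s hs
  rw [Measure.map_apply h0.measurable hs, prod_gam, withDensity_apply _ (h0.measurable hs),
    withDensity_apply _ hs]
  have hm : Measurable (fun w : E n × E n =>
      ENNReal.ofReal (gd n w.1) * ENNReal.ofReal (gd n w.2)) :=
    (((meas_gd n).comp measurable_fst).ennreal_ofReal).mul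
      (((meas_gd n).comp measurable_snd).ennreal_ofReal)
  rw [← h0.setLIntegral_comp_preimage hs hm]
  simp only [hgd]

/-- the law of `ρ x + σ y` -/
theorem law {ρ σ : ℝ} (h : ρ ^ 2 + σ ^ 2 = 1) :
    MeasurePreserving (fun w : E n × E n => ρ • w.1 + σ • w.2) ((gam n).prod (gam n)) (gam n) := by
  have := gprob n
  have h1 : MeasurePreserving (Prod.fst : E n × E n → E n) ((gam n).prod (gam n)) (gam n) :=
    measurePreserving_fst
  exact h1.comp (rot_gam h)

end Pool.Agent.Q280.FC
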